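import Pool.Agent.H28.MinSub.HarmSet2
import Pool.Agent.H28.MinSub.Spectral

open Metric Set Filter Topology
open scoped ENNReal

namespace Pool.Agent.Results.MP_784777_an.PeriodicCounterexample

open Pool.Agent.H28.MinSub

/-- For every `ρ > 0` and every natural number `N > ρ` there is `v ∈ U[ρ]` such that
`v (2 z) = 2^ρ v z` (so `v̂` is doubly periodic), `H(v) = {Re z^N > 0}`, `v` is minimal and
`λ(v) = N > ρ`.  In particular the criterion of Q1 fails. -/
theorem result :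
    (∀ ρ : ℝ, 0 < ρ → ∀ N : ℕ, ρ < N →
      ∃ v ∈ classU ρ, (∀ z : ℂ, v (2 * z) = (((2 : ℝ) ^ ρ : ℝ) : EReal) * v z) ∧
        harmonicSet v = {z : ℂ | 0 < (z ^ N).re} ∧ IsMinimal ρ v ∧ spectralRate v = N) ∧
    ¬ SpectralCriterion := by
  have main : ∀ ρ : ℝ, 0 < ρ → ∀ N : ℕ, ρ < N →
      ∃ v ∈ classU ρ, (∀ z : ℂ, v (2 * z) = (((2 : ℝ) ^ ρ : ℝ) : EReal) * v z) ∧
        harmonicSet v = {z : ℂ | 0 < (z ^ N).re} ∧ IsMinimal ρ v ∧ spectralRate v = N := by
    intro ρ hρ N hN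
    obtain ⟨q, hqA, hqd⟩ := exists_dense_seq N
    have hq : ∀ j, 1 ≤ ‖q j‖ := fun j => (hqA j).2.1
    have hset : harmonicSet (exData hρ hN q hq).pot = {z : ℂ | 0 < (z ^ N).re} :=
      Subset.antisymm (harmonicSet_subset hρ hN q hq hqd)
        (subset_harmonicSet hρ hN q hq (fun j => (hqA j).1) fun j => (hqA j).2.2)
    have hN0 : 0 < N := by
      have : (0 : ℝ) < N := hρ.trans hN
      exact_mod_cast this
    refine ⟨(exData hρ hN q hq).pot, exPot_mem hρ hN q hq, exPot_double hρ hN q hq, hset,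
      exPot_minimal hρ hN q hq, ?_⟩
    unfold spectralRate
    rw [hset, exp_preimage, criticalRate_strips hN0]
  refine ⟨main, ?_⟩
  intro hcrit
  obtain ⟨v, hv, -, hset, hmin, hrate⟩ := main 1 one_pos 2 (by norm_num)
  have hne : harmonicSet v ≠ univ := by
    rw [hset]
    intro h
    have : (0 : ℂ) ∈ {z : ℂ | 0 < (z ^ 2).re} := by rw [h]; exact mem_univ _
    simp at this
  have h1 := (hcrit 1 one_pos v hv hne).1 hmin
  rw [hrate, ENNReal.ofReal_one] at h1
  norm_num at h1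

end Pool.Agent.Results.MP_784777_an.PeriodicCounterexample
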